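import Mathlib

/-!
The mean value of a continuous function along a linear flow with independent frequencies is its
integral over the torus; the dictionary between Dirichlet polynomials and polynomials in the primes.
-/

set_option autoImplicit false

namespace Pool.Agent.P.MP_d14b1f_an.Bohr

open MeasureTheory Filter Topology UnitAddTorus

variable {ι : Type} [Fintype ι]

/-- The orbit of the linear flow with frequencies `w`. -/
noncomputable def flow (w : ι → ℝ) (t : ℝ) : UnitAddTorus ι :=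
  fun i => ((w i * t : ℝ) : UnitAddCircle)

omit [Fintype ι] in
theorem flow_cont (w : ι → ℝ) : Continuous (flow w) :=
  continuous_pi fun i => (AddCircle.continuous_mk' 1).comp (by fun_prop)

theorem mF_add (c : ι → ℤ) (y z : UnitAddTorus ι) :
    mFourier c (y + z) = mFourier c y * mFourier c z := by
  simp only [mFourier, ContinuousMap.coe_mk, Pi.add_apply, fourier_apply, smul_add,
    AddCircle.toCircle_add, Circle.coe_mul, Finset.prod_mul_distrib]

theorem mF_flow (c : ι → ℤ) (w : ι → ℝ) (t : ℝ) :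
    mFourier c (flow w t) =
      Complex.exp ((((2 * Real.pi * ∑ i, c i * w i : ℝ) : ℂ) * Complex.I) * t) := by
  simp only [mFourier, flow, ContinuousMap.coe_mk, fourier_coe_apply]
  rw [← Complex.exp_sum]
  congr 1
  push_cast
  rw [Finset.mul_sum, Finset.sum_mul, Finset.sum_mul]
  refine Finset.sum_congr rfl fun i _ => ?_
  ring

theorem int_mF (μ : Measure (UnitAddTorus ι)) [μ.IsAddLeftInvariant] {c : ι → ℤ}
    (y : UnitAddTorus ι) (hy : mFourier c y ≠ 1) : ∫ x, mFourier c x ∂μ = 0 := by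
  have h := integral_add_left_eq_self (μ := μ) (fun x => mFourier c x) y
  simp only [mF_add] at h
  rw [integral_const_mul] at h
  have : (mFourier c y - 1) * ∫ x, mFourier c x ∂μ = 0 := by rw [sub_mul, h]; ring
  exact (mul_eq_zero.1 this).resolve_left (sub_ne_zero.2 hy)

/-- The mean over `[-T, T]` along the flow. -/
noncomputable def avg (w : ι → ℝ) (g : C(UnitAddTorus ι, ℂ)) (T : ℝ) : ℂ :=
  ((1 / (2 * T) : ℝ) : ℂ) * ∫ t in (-T)..T, g (flow w t)

omit [Fintype ι] in
theorem ii (w : ι → ℝ) (g : C(UnitAddTorus ι, ℂ)) (a b : ℝ) :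
    IntervalIntegrable (fun t => g (flow w t)) volume a b :=
  (g.continuous.comp (flow_cont w)).intervalIntegrable a b

omit [Fintype ι] in
theorem avg_le (w : ι → ℝ) (g : C(UnitAddTorus ι, ℂ)) {T : ℝ} (hT : 0 < T) :
    ‖avg w g T‖ ≤ ‖g‖ := by
  have h := intervalIntegral.norm_integral_le_of_norm_le_const (a := -T) (b := T)
    (f := fun t => g (flow w t)) (C := ‖g‖) (fun t _ => g.norm_coe_le_norm _)
  rw [avg, norm_mul, Complex.norm_real, Real.norm_of_nonneg (by positivity)]
  rw [show T - -T = 2 * T by ring, abs_of_pos (by positivity)] at h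
  calc 1 / (2 * T) * ‖∫ t in (-T)..T, g (flow w t)‖ ≤ 1 / (2 * T) * (‖g‖ * (2 * T)) := by gcongr
    _ = ‖g‖ := by field_simp

omit [Fintype ι] in
theorem avg_add (w : ι → ℝ) (g g' : C(UnitAddTorus ι, ℂ)) (T : ℝ) :
    avg w (g + g') T = avg w g T + avg w g' T := by
  simp only [avg, ContinuousMap.add_apply]
  rw [intervalIntegral.integral_add (ii w g _ _) (ii w g' _ _), mul_add]

omit [Fintype ι] in
theorem avg_smul (w : ι → ℝ) (a : ℂ) (g : C(UnitAddTorus ι, ℂ)) (T : ℝ) :
    avg w (a • g) T = a * avg w g T := by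
  simp only [avg, ContinuousMap.smul_apply, smul_eq_mul]
  rw [intervalIntegral.integral_const_mul]; ring

theorem cm_int (μ : Measure (UnitAddTorus ι)) [IsProbabilityMeasure μ]
    (g : C(UnitAddTorus ι, ℂ)) : Integrable (fun x => g x) μ :=
  g.continuous.integrable_of_hasCompactSupport (HasCompactSupport.of_compactSpace _)

theorem avg_mF (w : ι → ℝ) (hw : ∀ k : ι → ℤ, ∑ i, (k i : ℝ) * w i = 0 → k = 0)
    (μ : Measure (UnitAddTorus ι)) [IsProbabilityMeasure μ] [μ.IsAddLeftInvariant] (c : ι → ℤ) :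
    Tendsto (avg w (mFourier c)) atTop (𝓝 (∫ x, mFourier c x ∂μ)) := by
  by_cases hc : c = 0
  · subst hc
    simp only [mFourier_zero, ContinuousMap.one_apply, integral_const, probReal_univ, one_smul]
    refine tendsto_const_nhds.congr' ?_
    filter_upwards [eventually_gt_atTop 0] with T hT
    have : (T : ℂ) ≠ 0 := by exact_mod_cast hT.ne'
    simp only [avg, ContinuousMap.one_apply, intervalIntegral.integral_const, Complex.real_smul]
    push_cast
    field_simp
    ring
  · set a : ℝ := 2 * Real.pi * ∑ i, c i * w i with ha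
    have hs : (∑ i, (c i : ℝ) * w i) ≠ 0 := fun h => hc (hw c h)
    have ha0 : a ≠ 0 := by rw [ha]; positivity
    have haC : (a : ℂ) ≠ 0 := by exact_mod_cast ha0
    have hne : (a : ℂ) * Complex.I ≠ 0 := mul_ne_zero haC Complex.I_ne_zero
    have hy : mFourier c (flow w (Real.pi / a)) ≠ 1 := by
      rw [mF_flow, ← ha]
      have : (a : ℂ) * Complex.I * ((Real.pi / a : ℝ) : ℂ) = Real.pi * Complex.I := by
        push_cast; field_simp
      rw [this, Complex.exp_pi_mul_I]; norm_num
    rw [int_mF μ _ hy]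
    have hb : ∀ T : ℝ, 0 < T → ‖avg w (mFourier c) T‖ ≤ (1 / |a|) * T⁻¹ := fun T hT => by
      have e1 : ∀ t : ℝ, ‖Complex.exp ((a : ℂ) * Complex.I * t)‖ = 1 := fun t => by
        rw [show (a : ℂ) * Complex.I * t = ((a * t : ℝ) : ℂ) * Complex.I by push_cast; ring]
        exact Complex.norm_exp_ofReal_mul_I _
      simp only [avg, mF_flow, ← ha]
      rw [integral_exp_mul_complex hne, norm_mul, Complex.norm_real,
        Real.norm_of_nonneg (by positivity), norm_div, norm_mul, Complex.norm_I, mul_one,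
        Complex.norm_real, Real.norm_eq_abs]
      have h2 := norm_sub_le (Complex.exp ((a : ℂ) * Complex.I * T))
        (Complex.exp ((a : ℂ) * Complex.I * ((-T : ℝ) : ℂ)))
      rw [e1, e1] at h2
      have hap : 0 < |a| := abs_pos.2 ha0
      calc _ ≤ 1 / (2 * T) * ((1 + 1) / |a|) := by gcongr
        _ = _ := by field_simp; ring
    refine squeeze_zero_norm' (a := fun T : ℝ => (1 / |a|) * T⁻¹) ?_ ?_
    · filter_upwards [eventually_gt_atTop 0] with T hT using hb T hT
    · simpa using tendsto_inv_atTop_zero.const_mul (1 / |a|)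

theorem avg_tendsto (w : ι → ℝ) (hw : ∀ k : ι → ℤ, ∑ i, (k i : ℝ) * w i = 0 → k = 0)
    (μ : Measure (UnitAddTorus ι)) [IsProbabilityMeasure μ] [μ.IsAddLeftInvariant]
    (g : C(UnitAddTorus ι, ℂ)) : Tendsto (avg w g) atTop (𝓝 (∫ x, g x ∂μ)) := by
  have hspan : ∀ f ∈ Submodule.span ℂ (Set.range (mFourier (d := ι))),
      Tendsto (avg w f) atTop (𝓝 (∫ x, f x ∂μ)) := by
    intro f hf
    induction hf using Submodule.span_induction with
    | mem f hf => obtain ⟨c, rfl⟩ := hf; exact avg_mF w hw μ c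
    | zero =>
      have : avg w (0 : C(UnitAddTorus ι, ℂ)) = fun _ => 0 := by funext T; simp [avg]
      rw [this]; simp
    | add f f' _ _ ih ih' =>
      simp only [ContinuousMap.add_apply]
      rw [integral_add (cm_int μ f) (cm_int μ f')]
      exact (ih.add ih').congr fun T => (avg_add w f f' T).symm
    | smul a f _ ih =>
      simp only [ContinuousMap.smul_apply, smul_eq_mul]
      rw [integral_const_mul]
      exact (ih.const_mul a).congr fun T => (avg_smul w a f T).symm
  have hF : g ∈ closure (Submodule.span ℂ (Set.range (mFourier (d := ι))) : Set _) := by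
    rw [← Submodule.topologicalClosure_coe, span_mFourier_closure_eq_top]; trivial
  rw [Metric.tendsto_nhds]
  intro ε hε
  obtain ⟨f, hf, hd⟩ := Metric.mem_closure_iff.1 hF (ε / 3) (by positivity)
  rw [dist_eq_norm] at hd
  filter_upwards [eventually_gt_atTop 0,
    Metric.tendsto_nhds.1 (hspan f hf) (ε / 3) (by positivity)] with T hT h1
  rw [dist_eq_norm] at h1 ⊢
  have e1 : avg w g T = avg w (g - f) T + avg w f T := by rw [← avg_add, sub_add_cancel]
  have e2 : ∫ x, g x ∂μ = ∫ x, (g - f) x ∂μ + ∫ x, f x ∂μ := by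
    rw [← integral_add (cm_int μ _) (cm_int μ f)]; simp
  have h2 := avg_le w (g - f) hT
  have h3 : ‖∫ x, (g - f) x ∂μ‖ ≤ ‖g - f‖ := by
    simpa using norm_integral_le_of_norm_le_const (μ := μ) (f := fun x => (g - f) x)
      (C := ‖g - f‖) (Eventually.of_forall fun x => (g - f).norm_coe_le_norm x)
  rw [e1, e2]
  calc _ = ‖avg w (g - f) T - ∫ x, (g - f) x ∂μ + (avg w f T - ∫ x, f x ∂μ)‖ := by
        congr 1; ring
    _ ≤ ‖avg w (g - f) T‖ + ‖∫ x, (g - f) x ∂μ‖ + ‖avg w f T - ∫ x, f x ∂μ‖ :=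
        (norm_add_le _ _).trans (by gcongr; exact norm_sub_le _ _)
    _ < ε := by linarith

/-- The theorem of Kronecker and Weyl for real functions, for any invariant probability measure. -/
theorem mean_tendsto (w : ι → ℝ) (hw : ∀ k : ι → ℤ, ∑ i, (k i : ℝ) * w i = 0 → k = 0)
    (μ : Measure (UnitAddTorus ι)) [IsProbabilityMeasure μ] [μ.IsAddLeftInvariant]
    (g : UnitAddTorus ι → ℝ) (hg : Continuous g) :
    Tendsto (fun T : ℝ => (1 / (2 * T)) * ∫ t in (-T)..T, g (flow w t)) atTop
      (𝓝 (∫ x, g x ∂μ)) := by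
  have h := avg_tendsto w hw μ ⟨fun x => (g x : ℂ), by fun_prop⟩
  simp only [ContinuousMap.coe_mk, integral_complex_ofReal] at h
  have h2 := (Complex.continuous_re.tendsto _).comp h
  simp only [Complex.ofReal_re] at h2
  refine h2.congr fun T => ?_
  simp only [Function.comp, avg, ContinuousMap.coe_mk, intervalIntegral.integral_ofReal,
    ← Complex.ofReal_mul, Complex.ofReal_re]

/-! ### Logarithms of primes -/

/-- The frequencies of the primes. -/
noncomputable def fr (pr : ι → ℕ) (i : ι) : ℝ := - Real.log (pr i) / (2 * Real.pi)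

theorem fr_indep (pr : ι → ℕ) (hp : ∀ i, (pr i).Prime) (hi : Function.Injective pr) (k : ι → ℤ)
    (h : ∑ i, (k i : ℝ) * fr pr i = 0) : k = 0 := by
  classical
  have h1 : ∑ i, (k i : ℝ) * Real.log (pr i) = 0 := by
    have : ∑ i, (k i : ℝ) * Real.log (pr i) = -(2 * Real.pi) * ∑ i, (k i : ℝ) * fr pr i := by
      rw [Finset.mul_sum]
      refine Finset.sum_congr rfl fun i _ => ?_
      rw [fr]; field_simp
    rw [this, h, mul_zero]
  have hpos : ∀ i, (0 : ℝ) < pr i := fun i => by exact_mod_cast (hp i).pos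
  have h2 : ∏ i, pr i ^ (k i).toNat = ∏ i, pr i ^ (-k i).toNat := by
    have hl : ∀ m : ι → ℕ, Real.log ((∏ i, pr i ^ m i : ℕ) : ℝ) = ∑ i, m i * Real.log (pr i) :=
      fun m => by
        push_cast
        rw [Real.log_prod fun i _ => (pow_pos (hpos i) _).ne']
        simp [Real.log_pow]
    have hq : ∀ m : ι → ℕ, (0 : ℝ) < ((∏ i, pr i ^ m i : ℕ) : ℝ) := fun m => by
      push_cast; exact Finset.prod_pos fun i _ => pow_pos (hpos i) _
    have : Real.log ((∏ i, pr i ^ (k i).toNat : ℕ) : ℝ) =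
        Real.log ((∏ i, pr i ^ (-k i).toNat : ℕ) : ℝ) := by
      rw [hl, hl, ← sub_eq_zero, ← Finset.sum_sub_distrib, ← h1]
      refine Finset.sum_congr rfl fun i _ => ?_
      have : (((k i).toNat : ℤ) : ℝ) - (((-k i).toNat : ℤ) : ℝ) = k i := by
        rw [← Int.cast_sub, Int.toNat_sub_toNat_neg]
      rw [← this]; push_cast; ring
    exact_mod_cast Real.log_injOn_pos (hq _) (hq _) this
  have hf : ∀ (m : ι → ℕ) (j : ι), (∏ i, pr i ^ m i).factorization (pr j) = m j := fun m j => by
    rw [Nat.factorization_prod fun i _ => pow_ne_zero _ (hp i).ne_zero]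
    simp only [Finset.sum_apply', Nat.Prime.factorization_pow (hp _), Finsupp.single_apply,
      hi.eq_iff]
    simp
  funext j
  have := hf (fun i => (k i).toNat) j
  rw [h2, hf (fun i => (-k i).toNat) j] at this
  simp only [Pi.zero_apply]
  omega

omit [Fintype ι] in
theorem fourier_flow (pr : ι → ℕ) (hp : ∀ i, (pr i).Prime) (t : ℝ) (i : ι) :
    fourier 1 (flow (fr pr) t i) = (pr i : ℂ) ^ (-((t : ℂ) * Complex.I)) := by
  have h0 : (pr i : ℂ) ≠ 0 := by exact_mod_cast (hp i).ne_zero
  have hpi : (Real.pi : ℂ) ≠ 0 := by exact_mod_cast Real.pi_ne_zero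
  rw [flow, fourier_coe_apply, Complex.cpow_def_of_ne_zero h0, fr]
  congr 1
  rw [← Complex.natCast_log]
  push_cast
  field_simp

/-! ### The dictionary -/

/-- The value of a Dirichlet polynomial, as in the frozen statement. -/
noncomputable def dval (P : ℕ →₀ ℂ) (s : ℂ) : ℂ := ∑ n ∈ P.support, P n * ((n : ℂ) + 1) ^ (-s)

/-- The Dirichlet polynomial of a polynomial in the primes. -/
noncomputable def toD (pr : ι → ℕ) : MvPolynomial ι ℂ →ₗ[ℂ] (ℕ →₀ ℂ) :=
  (MvPolynomial.basisMonomials ι ℂ).constr ℂ fun m : ι →₀ ℕ =>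
    Finsupp.single ((∏ i, pr i ^ m i) - 1) (1 : ℂ)

/-- The polynomial in the primes of a Dirichlet polynomial. -/
noncomputable def ofD (pr : ι → ℕ) : (ℕ →₀ ℂ) →ₗ[ℂ] MvPolynomial ι ℂ :=
  Finsupp.linearCombination ℂ fun n : ℕ =>
    ∏ i, (MvPolynomial.X i : MvPolynomial ι ℂ) ^ (n + 1).factorization (pr i)

theorem dval_eq (P : ℕ →₀ ℂ) (s : ℂ) :
    dval P s = Finsupp.linearCombination ℂ (fun n : ℕ => ((n : ℂ) + 1) ^ (-s)) P := by
  simp [dval, Finsupp.linearCombination_apply, Finsupp.sum]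

theorem dval_add (P P' : ℕ →₀ ℂ) (s : ℂ) : dval (P + P') s = dval P s + dval P' s := by
  simp only [dval_eq, map_add]

theorem dval_sub (P P' : ℕ →₀ ℂ) (s : ℂ) : dval (P - P') s = dval P s - dval P' s := by
  simp only [dval_eq, map_sub]

theorem dval_smul (c : ℂ) (P : ℕ →₀ ℂ) (s : ℂ) : dval (c • P) s = c * dval P s := by
  simp only [dval_eq, map_smul, smul_eq_mul]

theorem dval_sum {κ : Type} (A : Finset κ) (P : κ → ℕ →₀ ℂ) (s : ℂ) :
    dval (∑ k ∈ A, P k) s = ∑ k ∈ A, dval (P k) s := by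
  simp only [dval_eq, map_sum]

theorem cpow_prod (pr : ι → ℕ) (m : ι → ℕ) (s : ℂ) :
    ((∏ i, pr i ^ m i : ℕ) : ℂ) ^ s = ∏ i, ((pr i : ℂ) ^ s) ^ m i := by
  classical
  have key : ∀ A : Finset ι,
      ((∏ i ∈ A, pr i ^ m i : ℕ) : ℂ) ^ s = ∏ i ∈ A, ((pr i : ℂ) ^ s) ^ m i := fun A => by
    induction A using Finset.induction_on with
    | empty => simp
    | insert a A ha ih =>
      rw [Finset.prod_insert ha, Finset.prod_insert ha, Nat.cast_mul, Complex.natCast_mul_natCast_cpow,
        ih, Nat.cast_pow, ← Complex.natCast_cpow_natCast_mul, Complex.cpow_nat_mul]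
  exact key _

theorem dval_toD (pr : ι → ℕ) (hp : ∀ i, (pr i).Prime) (Q : MvPolynomial ι ℂ) (s : ℂ) :
    dval (toD pr Q) s = MvPolynomial.eval (fun i => (pr i : ℂ) ^ (-s)) Q := by
  induction Q using MvPolynomial.induction_on' with
  | monomial m c =>
    have h1 : 1 ≤ ∏ i, pr i ^ m i :=
      Finset.prod_pos fun i _ => pow_pos (hp i).pos _
    have e : toD pr (MvPolynomial.monomial m c) = Finsupp.single ((∏ i, pr i ^ m i) - 1) c := by
      have e0 : (MvPolynomial.monomial m c : MvPolynomial ι ℂ) =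
          c • MvPolynomial.basisMonomials ι ℂ m := by
        simp [MvPolynomial.smul_monomial]
      rw [e0, map_smul, toD, Module.Basis.constr_basis]
      simp
    rw [e, dval_eq, Finsupp.linearCombination_single, MvPolynomial.eval_monomial,
      Finsupp.prod_fintype _ _ (by simp), ← cpow_prod, smul_eq_mul, Nat.cast_sub h1]
    simp
  | add Q Q' ih ih' => rw [map_add, dval_add, ih, ih', map_add]

theorem eval_ofD (pr : ι → ℕ) (hi : Function.Injective pr) (P : ℕ →₀ ℂ)
    (hP : ∀ n ∈ P.support, ∀ p, p.Prime → p ∣ n + 1 → p ∈ Set.range pr) (s : ℂ) :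
    MvPolynomial.eval (fun i => (pr i : ℂ) ^ (-s)) (ofD pr P) = dval P s := by
  classical
  rw [ofD, Finsupp.linearCombination_apply, Finsupp.sum, map_sum, dval]
  refine Finset.sum_congr rfl fun n hn => ?_
  rw [MvPolynomial.smul_eval, map_prod]
  simp only [map_pow, MvPolynomial.eval_X]
  rw [← cpow_prod]
  congr 2
  have e : ∏ i, pr i ^ (n + 1).factorization (pr i) = n + 1 := by
    conv_rhs => rw [← Nat.prod_factorization_pow_eq_self (Nat.add_one_ne_zero n)]
    rw [← Finset.prod_image (s := Finset.univ) (g := pr) (f := fun p => p ^ (n + 1).factorization p)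
      (fun a _ b _ h => hi h), Finsupp.prod]
    symm
    refine Finset.prod_subset (fun p hpn => ?_) (fun p _ hpn => ?_)
    · rw [Nat.support_factorization] at hpn
      obtain ⟨i, rfl⟩ := hP n hn p (Nat.prime_of_mem_primeFactors hpn)
        (Nat.dvd_of_mem_primeFactors hpn)
      exact Finset.mem_image_of_mem _ (Finset.mem_univ _)
    · rw [Finsupp.notMem_support_iff.1 hpn, pow_zero]
  rw [e]; push_cast; rfl

omit [Fintype ι] in
theorem cont_eval (Q : MvPolynomial ι ℂ) :
    Continuous fun x : UnitAddTorus ι => MvPolynomial.eval (fun i => fourier 1 (x i)) Q :=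
  (MvPolynomial.continuous_eval Q).comp
    (continuous_pi fun i => (fourier 1).continuous.comp (continuous_apply i))

/-- The mean of a Dirichlet polynomial along the imaginary axis is an integral over the torus. -/
theorem dmean_tendsto (pr : ι → ℕ) (hp : ∀ i, (pr i).Prime) (hi : Function.Injective pr)
    (μ : Measure (UnitAddTorus ι)) [IsProbabilityMeasure μ] [μ.IsAddLeftInvariant]
    (P : ℕ →₀ ℂ) (Q : MvPolynomial ι ℂ)
    (h : ∀ s : ℂ, dval P s = MvPolynomial.eval (fun i => (pr i : ℂ) ^ (-s)) Q)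
    {q : ℝ} (hq : 0 ≤ q) :
    Tendsto (fun T : ℝ => (1 / (2 * T)) * ∫ t in (-T)..T,
        ‖∑ n ∈ P.support, P n * ((n : ℂ) + 1) ^ (-((t : ℂ) * Complex.I))‖ ^ q) atTop
      (𝓝 (∫ x, ‖MvPolynomial.eval (fun i => fourier 1 (x i)) Q‖ ^ q ∂μ)) := by
  have := mean_tendsto (fr pr) (fr_indep pr hp hi) μ
    (fun x => ‖MvPolynomial.eval (fun i => fourier 1 (x i)) Q‖ ^ q)
    ((cont_eval Q).norm.rpow_const fun _ => Or.inr hq)
  simp only [fourier_flow pr hp, ← h, dval] at this
  exact this

theorem dmean_limsup (pr : ι → ℕ) (hp : ∀ i, (pr i).Prime) (hi : Function.Injective pr)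
    (μ : Measure (UnitAddTorus ι)) [IsProbabilityMeasure μ] [μ.IsAddLeftInvariant]
    (P : ℕ →₀ ℂ) (Q : MvPolynomial ι ℂ)
    (h : ∀ s : ℂ, dval P s = MvPolynomial.eval (fun i => (pr i : ℂ) ^ (-s)) Q)
    {q : ℝ} (hq : 0 ≤ q) :
    limsup (fun T : ℝ => (1 / (2 * T)) * ∫ t in (-T)..T,
        ‖∑ n ∈ P.support, P n * ((n : ℂ) + 1) ^ (-((t : ℂ) * Complex.I))‖ ^ q) atTop =
      ∫ x, ‖MvPolynomial.eval (fun i => fourier 1 (x i)) Q‖ ^ q ∂μ :=
  (dmean_tendsto pr hp hi μ P Q h hq).limsup_eq

/-- The primes below `X`, as an index type. -/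
abbrev PrLt (X : ℕ) : Type := {p : ℕ // p ∈ X.primesBelow}

theorem prLt_prime (X : ℕ) (i : PrLt X) : (i : ℕ).Prime := Nat.prime_of_mem_primesBelow i.2

/-- Every Dirichlet polynomial only involves the primes below a large `X`. -/
theorem exists_prLt (P : ℕ →₀ ℂ) : ∃ X0 : ℕ, ∀ X ≥ X0, ∀ n ∈ P.support, ∀ p, p.Prime → p ∣ n + 1 →
    p ∈ Set.range (fun i : PrLt X => (i : ℕ)) := by
  refine ⟨P.support.sup id + 2, fun X hX n hn p hp hd => ⟨⟨p, Nat.mem_primesBelow.2 ⟨?_, hp⟩⟩, rfl⟩⟩
  have h1 : n ≤ P.support.sup id := Finset.le_sup (f := id) hn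
  have h2 := Nat.le_of_dvd (Nat.succ_pos n) hd
  omega

/-! ### The default volume of the torus -/

instance prob_circle : IsProbabilityMeasure (volume : Measure UnitAddCircle) :=
  ⟨by simp [AddCircle.measure_univ]⟩

instance prob_torus : IsProbabilityMeasure (volume : Measure (UnitAddTorus ι)) :=
  inferInstanceAs (IsProbabilityMeasure (Measure.pi fun _ : ι => (volume : Measure UnitAddCircle)))

instance inv_torus : (volume : Measure (UnitAddTorus ι)).IsAddLeftInvariant :=
  inferInstanceAs (Measure.pi fun _ : ι => (volume : Measure UnitAddCircle)).IsAddLeftInvariant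

end Pool.Agent.P.MP_d14b1f_an.Bohr
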